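import Pool.Agent.H87.SH.Targets

/-! Row SCH of the board hlf (MP_2697e3_an): small weighted energy implies a pointwise bound
(Schoen trick). -/

namespace Pool.Agent.H89.SH

open MeasureTheory Metric Set Filter Topology Pool.Agent.H87.SN Pool.Agent.H87.SH
open scoped ContDiff RealInnerProductSpace ENNReal

theorem en_nonneg {n m : ℕ} (u : E n → E m) (x : E n) : 0 ≤ en u x := by
  unfold en nsq
  positivity

theorem hsq_nonneg {n m : ℕ} (u : E n → E m) (x : E n) : 0 ≤ hsq u x :=
  Finset.sum_nonneg fun _ _ => Finset.sum_nonneg fun _ _ => sq_nonneg _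

theorem theta_eq {n m : ℕ} (u : E n → E m) (z : E n) (R : ℝ) (hR : 0 < R) :
    theta u z R = R ^ 2 / R ^ n * ∫ y, en u y * phi (R⁻¹ • (y - z)) := by
  have h1 : ∀ v : E n, R ^ 2 * (en u (z + R • v) * phi v) =
      (fun w : E n => R ^ 2 * (en u (z + w) * phi (R⁻¹ • w))) (R • v) := by
    intro v
    simp only []
    rw [smul_smul, inv_mul_cancel₀ hR.ne', one_smul]
  have h0 : theta u z R = ∫ v : E n, (fun w : E n => R ^ 2 * (en u (z + w) * phi (R⁻¹ • w))) (R • v) :=
    integral_congr_ae (Eventually.of_forall h1)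
  rw [h0, Measure.integral_comp_smul volume (fun w : E n => R ^ 2 * (en u (z + w) * phi (R⁻¹ • w))) R]
  have h2 : (∫ x : E n, R ^ 2 * (en u (z + x) * phi (R⁻¹ • x))) =
      ∫ y : E n, R ^ 2 * (en u y * phi (R⁻¹ • (y - z))) := by
    rw [← integral_add_left_eq_self (fun y : E n => R ^ 2 * (en u y * phi (R⁻¹ • (y - z)))) z]
    simp
  rw [h2, integral_const_mul]
  have h3 : Module.finrank ℝ (E n) = n := by simp
  rw [h3, abs_of_pos (by positivity), smul_eq_mul]
  field_simp

theorem integrable_en_phi {n m : ℕ} (hPHI : T_PHI) (u : E n → E m) (V : Set (E n))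
    (hc : ContinuousOn (en u) V) (z : E n) (R : ℝ) (hR : 0 < R) (hV : closedBall z R ⊆ V) :
    Integrable (fun y => en u y * phi (R⁻¹ • (y - z))) := by
  obtain ⟨hd, -, -, -, h01, -, h0, -, -⟩ := hPHI n
  have hs : Function.support (fun y => en u y * phi (R⁻¹ • (y - z))) ⊆ closedBall z R := by
    intro y hy
    by_contra hn
    apply hy
    have h1 : 1 ≤ ‖R⁻¹ • (y - z)‖ := by
      rw [norm_smul, norm_inv, Real.norm_of_nonneg hR.le, ← div_eq_inv_mul, le_div_iff₀ hR,
        one_mul, ← dist_eq_norm]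
      rw [mem_closedBall] at hn
      exact (not_le.1 hn).le
    simp only []
    rw [(h0 _ h1).1, mul_zero]
  rw [← integrableOn_iff_integrable_of_support_subset hs]
  apply ContinuousOn.integrableOn_compact (isCompact_closedBall z R)
  apply ContinuousOn.mul (hc.mono hV)
  apply Continuous.continuousOn
  exact hd.continuous.comp (by fun_prop)

theorem lower {n m : ℕ} (hPHI : T_PHI) (u : E n → E m) (V : Set (E n))
    (hc : ContinuousOn (en u) V) (z : E n) (R : ℝ) (hR : 0 < R) (hV : closedBall z R ⊆ V) :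
    ∫ y in ball z (R / 2), en u y ≤ 64 / 27 * ∫ y, en u y * phi (R⁻¹ • (y - z)) := by
  have hi := integrable_en_phi hPHI u V hc z R hR hV
  obtain ⟨hd, -, -, -, h01, -, h0, hh, -⟩ := hPHI n
  have hsub : ball z (R / 2) ⊆ closedBall z R :=
    ball_subset_closedBall.trans (closedBall_subset_closedBall (by linarith))
  have hie : IntegrableOn (en u) (ball z (R / 2)) :=
    ((hc.mono hV).integrableOn_compact (isCompact_closedBall z R)).mono_set hsub
  have h1 : ∫ y in ball z (R / 2), en u y ≤
      ∫ y in ball z (R / 2), 64 / 27 * (en u y * phi (R⁻¹ • (y - z))) := by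
    apply setIntegral_mono_on hie (hi.integrableOn.const_mul _) measurableSet_ball
    intro y hy
    have h2 : ‖R⁻¹ • (y - z)‖ ≤ 1 / 2 := by
      rw [norm_smul, norm_inv, Real.norm_of_nonneg hR.le, ← div_eq_inv_mul, div_le_iff₀ hR,
        ← dist_eq_norm]
      have := mem_ball.1 hy
      linarith
    have h3 := hh _ h2
    nlinarith [en_nonneg u y]
  refine h1.trans ?_
  rw [integral_const_mul]
  apply mul_le_mul_of_nonneg_left _ (by norm_num)
  apply setIntegral_le_integral hi
  exact Eventually.of_forall fun y => mul_nonneg (en_nonneg u y) (h01 _).1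

theorem upper {n m : ℕ} (hPHI : T_PHI) (u : E n → E m) (V : Set (E n))
    (hc : ContinuousOn (en u) V) (z : E n) (R : ℝ) (hR : 0 < R) (hV : closedBall z R ⊆ V)
    (B : Set (E n)) (hB : MeasurableSet B) (hzB : ball z R ⊆ B) (hBi : IntegrableOn (en u) B) :
    ∫ y, en u y * phi (R⁻¹ • (y - z)) ≤ ∫ y in B, en u y := by
  have hi := integrable_en_phi hPHI u V hc z R hR hV
  obtain ⟨hd, -, -, -, h01, -, h0, hh, -⟩ := hPHI n
  rw [← integral_indicator hB]
  apply integral_mono hi ((integrable_indicator_iff hB).2 hBi)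
  intro y
  simp only []
  by_cases hy : y ∈ B
  · rw [indicator_of_mem hy]
    have := mul_le_mul_of_nonneg_left (h01 (R⁻¹ • (y - z))).2 (en_nonneg u y)
    linarith
  · rw [indicator_of_notMem hy]
    have h1 : 1 ≤ ‖R⁻¹ • (y - z)‖ := by
      rw [norm_smul, norm_inv, Real.norm_of_nonneg hR.le, ← div_eq_inv_mul, le_div_iff₀ hR,
        one_mul, ← dist_eq_norm]
      by_contra hlt
      exact hy (hzB (mem_ball.2 (not_le.1 hlt)))
    rw [(h0 _ h1).1, mul_zero]

theorem HM_mono {n m : ℕ} {L : ℝ} {U V : Set (E n)} {u : E n → E m} (h : HM n m L U u)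
    (hVU : V ⊆ U) : HM n m L V u := by
  refine ⟨h.smooth.mono hVU, ?_, fun x hx => h.lapb x (hVU hx)⟩
  have := h.orth
  intro x hx
  exact this x (hVU hx)

theorem pf_SCH (hPHI : T_PHI) (hMON : T_MON) (hMVI : T_MVI) (hBO1 : T_BO1) : T_SCH := by
  intro n m L hn hL
  obtain ⟨C, hC, hmv⟩ := hMVI n
  set κ : ℝ := min (1 / 4) (2 / (L ^ 2 + 1)) with hκ
  have hκ0 : 0 < κ := by
    rw [hκ]
    apply lt_min (by norm_num)
    positivity
  have hκ1 : κ ≤ 1 / 4 := min_le_left _ _
  have hκ2 : 8 * L ^ 2 * κ ≤ 16 := by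
    have h1 : κ ≤ 2 / (L ^ 2 + 1) := min_le_right _ _
    have h2 : (0 : ℝ) < L ^ 2 + 1 := by positivity
    rw [le_div_iff₀ h2] at h1
    nlinarith
  set K : ℝ := C * (64 / 27) ^ 2 * 8 ^ n / 64 with hK
  have hK0 : 0 < K := by rw [hK]; positivity
  refine ⟨κ / K, by positivity, ?_⟩
  intro u x r ρ hr hρ hu hth y hy
  have hbo := hBO1 n m (ball x ρ) u isOpen_ball hu.smooth hu.orth
  have hen : ContDiffOn ℝ ∞ (en u) (ball x ρ) := hbo.1
  have hlap : ∀ x' ∈ ball x ρ, lap (en u) x' = 2 * (hsq u x' - ‖lap u x'‖ ^ 2) :=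
    fun x' hx' => (hbo.2 x' hx').1
  have hc : ContinuousOn (en u) (ball x ρ) := hen.continuousOn
  have hcb : closedBall x (2 * r) ⊆ ball x ρ := closedBall_subset_ball (by linarith)
  obtain ⟨y0, hy0, hmax⟩ := (isCompact_closedBall x (2 * r)).exists_isMaxOn
    ⟨x, mem_closedBall_self (by linarith)⟩
    (f := fun y => (2 * r - dist y x) ^ 2 * en u y)
    (ContinuousOn.mul (by fun_prop) (hc.mono hcb))
  have hmax' : ∀ z ∈ closedBall x (2 * r),
      (2 * r - dist z x) ^ 2 * en u z ≤ (2 * r - dist y0 x) ^ 2 * en u y0 :=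
    fun z hz => hmax hz
  by_cases hle : (2 * r - dist y0 x) ^ 2 * en u y0 ≤ 1
  · have h1 := hmax' y (ball_subset_closedBall (ball_subset_ball (by linarith) hy))
    have h2 : r ^ 2 ≤ (2 * r - dist y x) ^ 2 := by
      apply pow_le_pow_left₀ hr.le
      have := mem_ball.1 hy
      linarith
    have h3 := mul_le_mul_of_nonneg_right h2 (en_nonneg u y)
    linarith
  · exfalso
    push Not at hle
    set e0 := en u y0 with he0
    have he0' : 0 ≤ e0 := en_nonneg u y0
    have hd0 : dist y0 x ≤ 2 * r := mem_closedBall.1 hy0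
    set s : ℝ := (2 * r - dist y0 x) / 2 with hs
    have hδ : 2 * r - dist y0 x = 2 * s := by rw [hs]; ring
    rw [hδ] at hle hmax'
    have hs0 : 0 < s := by
      have h1 : 0 ≤ s := by rw [hs]; linarith
      rcases h1.eq_or_lt with h | h
      · rw [← h] at hle
        norm_num at hle
      · exact h
    have he1 : 0 < e0 := by
      rcases he0'.eq_or_lt with h | h
      · rw [← h] at hle
        norm_num at hle
      · exact h
    have hsr : s ≤ r := by
      have := dist_nonneg (x := y0) (y := x)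
      rw [hs]; linarith
    have hle4 : ∀ z ∈ ball y0 s, en u z ≤ 4 * e0 := by
      intro z hz
      have h1 : dist z x ≤ 2 * r - s := by
        have := dist_triangle z y0 x
        have h2 := mem_ball.1 hz
        linarith
      have h3 := hmax' z (mem_closedBall.2 (by linarith))
      have h4 : s ^ 2 ≤ (2 * r - dist z x) ^ 2 := pow_le_pow_left₀ hs0.le (by linarith) 2
      have h5 := mul_le_mul_of_nonneg_right h4 (en_nonneg u z)
      have h6 : s ^ 2 * en u z ≤ s ^ 2 * (4 * e0) := by nlinarith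
      exact le_of_mul_le_mul_left h6 (by positivity)
    set t : ℝ := Real.sqrt (κ / e0) with ht
    have ht0 : 0 < t := Real.sqrt_pos.2 (by positivity)
    have ht2 : t ^ 2 = κ / e0 := Real.sq_sqrt (by positivity)
    have ht2' : t ^ 2 * e0 = κ := by rw [ht2]; field_simp
    have hts : t < s := by
      have h1 : t ^ 2 < s ^ 2 := by
        have h2 : t ^ 2 * e0 < s ^ 2 * e0 := by nlinarith
        exact lt_of_mul_lt_mul_right h2 he0'
      exact lt_of_pow_lt_pow_left₀ 2 hs0.le h1
    have hby : ball y0 t ⊆ ball x ρ := by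
      apply ball_subset_ball'
      linarith
    -- mean value inequality
    have hC2 : ContDiffOn ℝ 2 (en u) (ball y0 t) := (hen.mono hby).of_le ENat.LEInfty.out
    have hΛ0 : 0 ≤ 8 * L ^ 2 * e0 := mul_nonneg (mul_nonneg (by norm_num) (sq_nonneg L)) he0'
    have hΛ1 : 8 * L ^ 2 * e0 * t ^ 2 ≤ 16 := by
      have : 8 * L ^ 2 * e0 * t ^ 2 = 8 * L ^ 2 * (t ^ 2 * e0) := by ring
      rw [this, ht2']; exact hκ2
    have hΛ2 : ∀ z ∈ ball y0 t, - (8 * L ^ 2 * e0 * en u z) ≤ lap (en u) z := by
      intro z hz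
      have hzρ := hby hz
      rw [hlap z hzρ]
      have h1 := hu.lapb z hzρ
      have h2 : ‖lap u z‖ ^ 2 ≤ (L * en u z) ^ 2 := pow_le_pow_left₀ (norm_nonneg _) h1 2
      have h3 : 0 ≤ hsq u z := hsq_nonneg u z
      have h4 := hle4 z (ball_subset_ball hts.le hz)
      have h5 := en_nonneg u z
      have h6 : (L * en u z) ^ 2 ≤ L ^ 2 * (4 * e0 * en u z) := by
        rw [mul_pow, pow_two (en u z)]
        exact mul_le_mul_of_nonneg_left (mul_le_mul_of_nonneg_right h4 h5) (sq_nonneg L)
      linarith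
    have hmv1 := hmv (en u) y0 t (8 * L ^ 2 * e0) ht0 hC2 (fun z _ => en_nonneg u z) hΛ0 hΛ1 hΛ2
    have hcy : closedBall y0 (2 * t) ⊆ ball x ρ := by
      intro z hz
      have := mem_closedBall.1 hz
      have h2 := dist_triangle z y0 x
      rw [mem_ball]
      linarith
    have hcy2 : closedBall y0 (2 * r) ⊆ ball x ρ := by
      intro z hz
      have := mem_closedBall.1 hz
      have h2 := dist_triangle z y0 x
      rw [mem_ball]
      linarith
    have hit : IntegrableOn (en u) (ball y0 t) :=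
      ((hc.mono hcy).integrableOn_compact (isCompact_closedBall y0 (2 * t))).mono_set
        (ball_subset_closedBall.trans (closedBall_subset_closedBall (by linarith)))
    have hmv2 : t ^ n * e0 ≤ C * ∫ y in ball y0 t, en u y := by
      rw [← ofReal_integral_eq_lintegral_ofReal hit
        (Eventually.of_forall fun z => en_nonneg u z), ← ENNReal.ofReal_mul hC.le] at hmv1
      rwa [ENNReal.ofReal_le_ofReal_iff] at hmv1
      exact mul_nonneg hC.le (integral_nonneg fun z => en_nonneg u z)
    have hlow := lower hPHI u (ball x ρ) hc y0 (2 * t) (by positivity) hcy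
    rw [show 2 * t / 2 = t by ring] at hlow
    have hth1 := theta_eq u y0 (2 * t) (by positivity)
    have hmono : theta u y0 (2 * t) ≤ theta u y0 (2 * r) := by
      apply hMON n m L u y0 (ρ - 2 * r) hn (HM_mono hu (ball_subset_ball' (by linarith)))
      · exact ⟨by positivity, by linarith⟩
      · exact ⟨by positivity, by linarith⟩
      · linarith
    have hth2 := theta_eq u y0 (2 * r) (by positivity)
    have hc8 : closedBall x (8 * r) ⊆ ball x ρ := closedBall_subset_ball hρ
    have hi4 : IntegrableOn (en u) (ball x (4 * r)) :=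
      ((hc.mono hc8).integrableOn_compact (isCompact_closedBall x (8 * r))).mono_set
        (ball_subset_closedBall.trans (closedBall_subset_closedBall (by linarith)))
    have hup := upper hPHI u (ball x ρ) hc y0 (2 * r) (by positivity) hcy2 (ball x (4 * r))
      measurableSet_ball (ball_subset_ball' (by linarith)) hi4
    have hlow2 := lower hPHI u (ball x ρ) hc x (8 * r) (by positivity) hc8
    rw [show 8 * r / 2 = 4 * r by ring] at hlow2
    have hth3 := theta_eq u x (8 * r) (by positivity)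
    set I1 := ∫ y, en u y * phi ((2 * t)⁻¹ • (y - y0))
    set I2 := ∫ y, en u y * phi ((2 * r)⁻¹ • (y - y0))
    set I3 := ∫ y, en u y * phi ((8 * r)⁻¹ • (y - x))
    set θ1 := theta u y0 (2 * t)
    set θ2 := theta u y0 (2 * r)
    set θ3 := theta u x (8 * r)
    have hI1 : I1 = θ1 * ((2 * t) ^ n / (2 * t) ^ 2) := by rw [hth1]; field_simp
    have hI3 : I3 = θ3 * ((8 * r) ^ n / (8 * r) ^ 2) := by rw [hth3]; field_simp
    have e1 : t ^ n * e0 ≤ C * (64 / 27) * (θ1 * ((2 * t) ^ n / (2 * t) ^ 2)) := by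
      rw [← hI1]
      refine hmv2.trans ?_
      rw [mul_assoc]
      exact mul_le_mul_of_nonneg_left hlow hC.le
    have e2 : κ ≤ C * (64 / 27) * (2 ^ n / 4) * θ1 := by
      have h1 : t ^ n * (t ^ 2 * e0) ≤ t ^ n * (C * (64 / 27) * (2 ^ n / 4) * θ1) := by
        have h2 := mul_le_mul_of_nonneg_left e1 (sq_nonneg t)
        have h3 : t ^ 2 * (C * (64 / 27) * (θ1 * ((2 * t) ^ n / (2 * t) ^ 2))) =
            t ^ n * (C * (64 / 27) * (2 ^ n / 4) * θ1) := by
          rw [mul_pow, mul_pow]
          field_simp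
          try ring
        rw [← h3]
        linarith
      rw [← ht2']
      exact le_of_mul_le_mul_left h1 (by positivity)
    have e3 : θ2 ≤ 64 / 27 * (4 ^ n / 16) * θ3 := by
      rw [hth2]
      have h1 : I2 ≤ 64 / 27 * (θ3 * ((8 * r) ^ n / (8 * r) ^ 2)) := by
        rw [← hI3]; exact hup.trans hlow2
      have h2 := mul_le_mul_of_nonneg_left h1 (show (0 : ℝ) ≤ (2 * r) ^ 2 / (2 * r) ^ n by positivity)
      refine h2.trans (le_of_eq ?_)
      rw [show (8 * r) ^ n = 4 ^ n * (2 * r) ^ n by rw [← mul_pow]; ring_nf]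
      field_simp
      try ring
    have e4 : κ ≤ K * θ3 := by
      have h1 : C * (64 / 27) * (2 ^ n / 4) * θ1 ≤
          C * (64 / 27) * (2 ^ n / 4) * (64 / 27 * (4 ^ n / 16) * θ3) :=
        mul_le_mul_of_nonneg_left (hmono.trans e3) (by positivity)
      refine (e2.trans h1).trans (le_of_eq ?_)
      rw [hK, show (8 : ℝ) ^ n = 2 ^ n * 4 ^ n by rw [← mul_pow]; norm_num]
      ring
    have e5 : K * θ3 < κ := by
      rw [lt_div_iff₀ hK0] at hth
      linarith
    linarith

end Pool.Agent.H89.SH
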